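import Pool.Agent.H902D.Size

/-! The archimedean condition: the norm is not small compared with the imaginary part. -/

set_option autoImplicit false

namespace Pool.Agent.H902E

open Zsqrtd Finset Pool.Agent.H902D

theorem log_pp {d : ℤ} {ι : Type} [Fintype ι] (β : ι → ℤ√d) (σ : ℤ√d →+* ℝ)
    (h : ∀ i, σ (β i) ≠ 0) (f : ι → ℕ) :
    Real.log |σ (pp β f)| = ∑ i, f i * Real.log |σ (β i)| := by
  unfold pp
  rw [map_prod, Finset.abs_prod, Real.log_prod (fun i _ => by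
    rw [map_pow]
    exact abs_ne_zero.2 (pow_ne_zero _ (h i)))]
  refine Finset.sum_congr rfl fun i _ => ?_
  rw [map_pow, abs_pow, Real.log_pow]

theorem arch_pos (d : ℤ) (hd : ¬ IsSquare d) (hpos : 0 < d) {ι : Type} [Fintype ι]
    (β : ι → ℤ√d) (W : ℝ) (hW : 1 ≤ W) (hβW : ∀ i, wt (β i) ≤ W) (hβ0 : ∀ i, β i ≠ 0) (E : ℕ) :
    ∃ (M : ℕ) (Λ : (ι → ℕ) → Fin M), (M : ℝ) ≤ 4 * (Fintype.card ι * E * Real.log W) + 1 ∧
      ∀ m f f' : ι → ℕ, (∀ i, m i + f i < E) → (∀ i, m i + f' i < E) →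
        Λ (fun i => m i + f i) = Λ (fun i => m i + f' i) →
        ((pp β f * star (pp β f')).im : ℝ) ^ 2 ≤ 4 * |((pp β f * star (pp β f')).norm : ℝ)| := by
  classical
  have hns : ∀ n : ℤ, d ≠ n * n := fun n hn => hd ⟨n, hn⟩
  have hdR : (0 : ℝ) ≤ (d : ℝ) := by exact_mod_cast hpos.le
  set s : ℝ := Real.sqrt (d : ℝ) with hs
  have hs0 : 0 ≤ s := Real.sqrt_nonneg _
  have hss : s * s = (d : ℝ) := Real.mul_self_sqrt hdR
  have hss' : (-s) * (-s) = (d : ℝ) := by rw [neg_mul_neg, hss]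
  set σ₁ : ℤ√d →+* ℝ := phi s hss with hσ₁
  set σ₂ : ℤ√d →+* ℝ := phi (-s) hss' with hσ₂
  have e1 : ∀ γ : ℤ√d, σ₁ γ = (γ.re : ℝ) + γ.im * s := fun γ => phi_apply s hss γ
  have e2 : ∀ γ : ℤ√d, σ₂ γ = (γ.re : ℝ) + γ.im * (-s) := fun γ => phi_apply (-s) hss' γ
  have e1s : ∀ γ : ℤ√d, σ₁ (star γ) = σ₂ γ := by
    intro γ
    rw [e1, e2, re_star, im_star]
    push_cast
    ring
  have e2s : ∀ γ : ℤ√d, σ₂ (star γ) = σ₁ γ := by
    intro γ
    rw [e1, e2, re_star, im_star]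
    push_cast
    ring
  have enorm : ∀ γ : ℤ√d, σ₁ γ * σ₂ γ = (γ.norm : ℝ) := by
    intro γ
    rw [e1, e2, norm_def]
    push_cast
    linear_combination (-(γ.im : ℝ) ^ 2) * hss
  have hnorm1 : ∀ γ : ℤ√d, γ ≠ 0 → 1 ≤ |σ₁ γ| * |σ₂ γ| := by
    intro γ hγ
    rw [← abs_mul, enorm]
    have h1 : γ.norm ≠ 0 := by
      rw [Ne, Zsqrtd.norm_eq_zero hns]
      exact hγ
    have h2 : 1 ≤ |γ.norm| := Int.one_le_abs h1
    exact_mod_cast h2
  have hsabs : Real.sqrt (d.natAbs : ℝ) = s := by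
    rw [hs]
    congr 1
    rw [Nat.cast_natAbs, abs_of_pos hpos]
  have hle1 : ∀ γ : ℤ√d, |σ₁ γ| ≤ wt γ := by
    intro γ
    rw [e1]
    unfold wt
    rw [hsabs]
    calc _ ≤ |(γ.re : ℝ)| + |(γ.im : ℝ) * s| := abs_add_le _ _
      _ = _ := by rw [abs_mul, abs_of_nonneg hs0]; ring
  have hle2 : ∀ γ : ℤ√d, |σ₂ γ| ≤ wt γ := by
    intro γ
    rw [← e1s, ← wt_star]
    exact hle1 _
  have hne1 : ∀ i, σ₁ (β i) ≠ 0 := by
    intro i h0
    have := hnorm1 (β i) (hβ0 i)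
    rw [h0, abs_zero, zero_mul] at this
    linarith
  have hne2 : ∀ i, σ₂ (β i) ≠ 0 := by
    intro i h0
    have := hnorm1 (β i) (hβ0 i)
    rw [h0, abs_zero, mul_zero] at this
    linarith
  have hlW : 0 ≤ Real.log W := Real.log_nonneg hW
  set lo : ι → ℝ := fun i => Real.log |σ₁ (β i)| - Real.log |σ₂ (β i)| with hlo
  have hlo' : ∀ i, |lo i| ≤ 2 * Real.log W := by
    intro i
    have a1 : 0 < |σ₁ (β i)| := abs_pos.2 (hne1 i)
    have a2 : 0 < |σ₂ (β i)| := abs_pos.2 (hne2 i)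
    have b1 : Real.log |σ₁ (β i)| ≤ Real.log W := Real.log_le_log a1 ((hle1 _).trans (hβW i))
    have b2 : Real.log |σ₂ (β i)| ≤ Real.log W := Real.log_le_log a2 ((hle2 _).trans (hβW i))
    have b3 : 0 ≤ Real.log |σ₁ (β i)| + Real.log |σ₂ (β i)| := by
      rw [← Real.log_mul a1.ne' a2.ne']
      exact Real.log_nonneg (hnorm1 _ (hβ0 i))
    rw [hlo, abs_le]
    constructor <;> simp only <;> linarith
  set L : (ι → ℕ) → ℝ := fun e => ∑ i, e i * lo i with hL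
  set R : ℝ := 2 * (Fintype.card ι * E * Real.log W) with hR
  have hR0 : 0 ≤ R := by rw [hR]; positivity
  have hLR : ∀ e : ι → ℕ, (∀ i, e i < E) → |L e| ≤ R := by
    intro e he
    rw [hL]
    calc |∑ i, (e i : ℝ) * lo i| ≤ ∑ i, |(e i : ℝ) * lo i| := Finset.abs_sum_le_sum_abs _ _
      _ ≤ ∑ _i : ι, (E : ℝ) * (2 * Real.log W) := by
          refine Finset.sum_le_sum fun i _ => ?_
          rw [abs_mul, Nat.abs_cast]
          exact mul_le_mul (by exact_mod_cast (he i).le) (hlo' i) (abs_nonneg _) (Nat.cast_nonneg _)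
      _ = R := by
          rw [Finset.sum_const, Finset.card_univ, nsmul_eq_mul, hR]
          ring
  refine ⟨⌊2 * R⌋₊ + 1, fun e => ⟨min ⌊L e + R⌋₊ ⌊2 * R⌋₊, by omega⟩, ?_, ?_⟩
  · push_cast
    have := Nat.floor_le (show 0 ≤ 2 * R by linarith)
    rw [hR] at this ⊢
    linarith
  · intro m f f' hm hm' hΛ
    have hΛ' := congrArg Fin.val hΛ
    simp only at hΛ'
    have a1 := hLR _ hm
    have a2 := hLR _ hm'
    rw [abs_le] at a1 a2
    have b1 : ⌊L (fun i => m i + f i) + R⌋₊ ≤ ⌊2 * R⌋₊ := Nat.floor_le_floor (by linarith)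
    have b2 : ⌊L (fun i => m i + f' i) + R⌋₊ ≤ ⌊2 * R⌋₊ := Nat.floor_le_floor (by linarith)
    rw [min_eq_left b1, min_eq_left b2] at hΛ'
    have c1 := Nat.floor_le (show 0 ≤ L (fun i => m i + f i) + R by linarith)
    have c2 := Nat.floor_le (show 0 ≤ L (fun i => m i + f' i) + R by linarith)
    have c3 := Nat.lt_floor_add_one (L (fun i => m i + f i) + R)
    have c4 := Nat.lt_floor_add_one (L (fun i => m i + f' i) + R)
    rw [hΛ'] at c1 c3
    have hdiff : L (fun i => m i + f i) - L (fun i => m i + f' i) = L f - L f' := by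
      simp only [hL]
      rw [← Finset.sum_sub_distrib, ← Finset.sum_sub_distrib]
      refine Finset.sum_congr rfl fun i _ => ?_
      push_cast
      ring
    set γ : ℤ√d := pp β f * star (pp β f') with hγ
    have g1 : σ₁ γ = σ₁ (pp β f) * σ₂ (pp β f') := by rw [hγ, map_mul, e1s]
    have g2 : σ₂ γ = σ₂ (pp β f) * σ₁ (pp β f') := by rw [hγ, map_mul, e2s]
    have hpp : ∀ (σ : ℤ√d →+* ℝ), (∀ i, σ (β i) ≠ 0) → ∀ f : ι → ℕ, σ (pp β f) ≠ 0 :=
      fun σ h f => phi_pp_ne β f σ fun i _ => h i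
    have n1 : σ₁ γ ≠ 0 := by rw [g1]; exact mul_ne_zero (hpp _ hne1 _) (hpp _ hne2 _)
    have n2 : σ₂ γ ≠ 0 := by rw [g2]; exact mul_ne_zero (hpp _ hne2 _) (hpp _ hne1 _)
    have hlog : Real.log |σ₁ γ| - Real.log |σ₂ γ| = L f - L f' := by
      rw [g1, g2, abs_mul, abs_mul,
        Real.log_mul (abs_ne_zero.2 (hpp _ hne1 _)) (abs_ne_zero.2 (hpp _ hne2 _)),
        Real.log_mul (abs_ne_zero.2 (hpp _ hne2 _)) (abs_ne_zero.2 (hpp _ hne1 _)),
        log_pp β σ₁ hne1, log_pp β σ₂ hne2, log_pp β σ₂ hne2, log_pp β σ₁ hne1]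
      simp only [hL, hlo, mul_sub]
      rw [Finset.sum_sub_distrib, Finset.sum_sub_distrib]
      ring
    have p1 : 0 < |σ₁ γ| := abs_pos.2 n1
    have p2 : 0 < |σ₂ γ| := abs_pos.2 n2
    have hexp : Real.exp 1 < 3 := lt_trans Real.exp_one_lt_d9 (by norm_num)
    have q1 : |σ₁ γ| ≤ 3 * |σ₂ γ| := by
      have h1 : Real.log |σ₁ γ| ≤ 1 + Real.log |σ₂ γ| := by linarith
      have h2 := Real.exp_le_exp.2 h1
      rw [Real.exp_add, Real.exp_log p1, Real.exp_log p2] at h2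
      nlinarith
    have q2 : |σ₂ γ| ≤ 3 * |σ₁ γ| := by
      have h1 : Real.log |σ₂ γ| ≤ 1 + Real.log |σ₁ γ| := by linarith
      have h2 := Real.exp_le_exp.2 h1
      rw [Real.exp_add, Real.exp_log p1, Real.exp_log p2] at h2
      nlinarith
    have hY : 2 * (s * |(γ.im : ℝ)|) ≤ |σ₁ γ| + |σ₂ γ| := by
      have h1 : σ₁ γ - σ₂ γ = 2 * (s * γ.im) := by rw [e1, e2]; ring
      have h2 : |σ₁ γ - σ₂ γ| ≤ |σ₁ γ| + |σ₂ γ| := abs_sub _ _
      rw [h1, abs_mul, abs_mul, abs_two, abs_of_nonneg hs0] at h2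
      exact h2
    have hN : |σ₁ γ| * |σ₂ γ| = |(γ.norm : ℝ)| := by rw [← abs_mul, enorm]
    have hsq : s ^ 2 * |(γ.im : ℝ)| ^ 2 ≤ 4 * |(γ.norm : ℝ)| := by
      have h1 : 2 * (s * |(γ.im : ℝ)|) ≤ 4 * |σ₁ γ| := by linarith
      have h2 : 2 * (s * |(γ.im : ℝ)|) ≤ 4 * |σ₂ γ| := by linarith
      have h0 : 0 ≤ 2 * (s * |(γ.im : ℝ)|) := by positivity
      have h3 := mul_le_mul h1 h2 h0 (by positivity)
      rw [← hN]
      nlinarith
    have hd1 : (1 : ℝ) ≤ s ^ 2 := by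
      rw [sq, hss]
      exact_mod_cast hpos
    have hYY : 0 ≤ |(γ.im : ℝ)| ^ 2 := by positivity
    rw [← sq_abs (γ.im : ℝ)]
    nlinarith

theorem arch (d : ℤ) (hd : ¬ IsSquare d) {ι : Type} [Fintype ι]
    (β : ι → ℤ√d) (W : ℝ) (hW : 1 ≤ W) (hβW : ∀ i, wt (β i) ≤ W) (hβ0 : ∀ i, β i ≠ 0) (E : ℕ) :
    ∃ (M : ℕ) (Λ : (ι → ℕ) → Fin M), (M : ℝ) ≤ 4 * (Fintype.card ι * E * Real.log W) + 1 ∧
      ∀ m f f' : ι → ℕ, (∀ i, m i + f i < E) → (∀ i, m i + f' i < E) →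
        Λ (fun i => m i + f i) = Λ (fun i => m i + f' i) →
        ((pp β f * star (pp β f')).im : ℝ) ^ 2 ≤ 4 * |((pp β f * star (pp β f')).norm : ℝ)| := by
  rcases lt_trichotomy d 0 with h | h | h
  · refine ⟨1, fun _ => 0, ?_, fun m f f' _ _ _ => ?_⟩
    · have := Real.log_nonneg hW
      push_cast
      have h2 : 0 ≤ (Fintype.card ι : ℝ) * E * Real.log W := by positivity
      linarith
    · set γ : ℤ√d := pp β f * star (pp β f') with hγ
      have hn : (γ.norm : ℝ) = (γ.re : ℝ) * γ.re - d * γ.im * γ.im := by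
        rw [norm_def]
        push_cast
        ring
      have hd1 : (d : ℝ) ≤ -1 := by exact_mod_cast (show d ≤ -1 by omega)
      have h1 : (γ.im : ℝ) ^ 2 ≤ (γ.norm : ℝ) := by
        rw [hn]
        nlinarith [mul_self_nonneg (γ.re : ℝ), mul_self_nonneg (γ.im : ℝ)]
      have h2 := le_abs_self (γ.norm : ℝ)
      have h3 := sq_nonneg (γ.im : ℝ)
      linarith
  · exact absurd ⟨0, by rw [h]; rfl⟩ hd
  · exact arch_pos d hd h β W hW hβW hβ0 E

end Pool.Agent.H902E
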