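import Pool.Agent.H902D.Est

/-! Semistable curves with a given quadratic two-division field. -/

set_option autoImplicit false

namespace Pool.Agent.H902E

open Finset Pool.Agent.H902D

/-- coprime invariants: the equation is a global minimal one -/
theorem minimal_of_coprime {W : WeierstrassCurve ℤ} (h : IsCoprime W.c₄ W.Δ)
    (W' : WeierstrassCurve ℤ)
    (hW : ∃ C : WeierstrassCurve.VariableChange ℚ,
      C • W.map (Int.castRingHom ℚ) = W'.map (Int.castRingHom ℚ)) : |W.Δ| ≤ |W'.Δ| := by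
  obtain ⟨C, hC⟩ := hW
  have h1 := congrArg WeierstrassCurve.Δ hC
  have h2 := congrArg WeierstrassCurve.c₄ hC
  rw [WeierstrassCurve.variableChange_Δ, WeierstrassCurve.map_Δ, WeierstrassCurve.map_Δ] at h1
  rw [WeierstrassCurve.variableChange_c₄, WeierstrassCurve.map_c₄, WeierstrassCurve.map_c₄] at h2
  simp only [eq_intCast] at h1 h2
  set v : ℚ := ((C.u⁻¹ : ℚˣ) : ℚ) with hv
  have hv0 : v ≠ 0 := (C.u⁻¹).ne_zero
  have hcop : IsCoprime (v.num) (v.den : ℤ) := v.isCoprime_num_den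
  have hs0 : (v.den : ℚ) ≠ 0 := by exact_mod_cast v.den_nz
  have hvd : v * v.den = v.num := Rat.mul_den_eq_num v
  have e1 : v.num ^ 12 * W.Δ = (v.den : ℤ) ^ 12 * W'.Δ := by
    have : (v.num : ℚ) ^ 12 * (W.Δ : ℚ) = (v.den : ℚ) ^ 12 * (W'.Δ : ℚ) := by
      rw [← h1, ← hvd]; ring
    exact_mod_cast this
  have e2 : v.num ^ 4 * W.c₄ = (v.den : ℤ) ^ 4 * W'.c₄ := by
    have : (v.num : ℚ) ^ 4 * (W.c₄ : ℚ) = (v.den : ℚ) ^ 4 * (W'.c₄ : ℚ) := by
      rw [← h2, ← hvd]; ring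
    exact_mod_cast this
  have d1 : (v.den : ℤ) ∣ W.Δ := by
    have : (v.den : ℤ) ^ 12 ∣ W.Δ :=
      (hcop.symm.pow (m := 12) (n := 12)).dvd_of_dvd_mul_left ⟨_, e1⟩
    exact (dvd_pow_self _ (by norm_num)).trans this
  have d2 : (v.den : ℤ) ∣ W.c₄ := by
    have : (v.den : ℤ) ^ 4 ∣ W.c₄ :=
      (hcop.symm.pow (m := 4) (n := 4)).dvd_of_dvd_mul_left ⟨_, e2⟩
    exact (dvd_pow_self _ (by norm_num)).trans this
  have d3 : IsUnit (v.den : ℤ) := h.isUnit_of_dvd' d2 d1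
  have d4 : (v.den : ℤ) = 1 := by
    rcases Int.isUnit_iff.mp d3 with h | h
    · exact h
    · have : (0 : ℤ) ≤ v.den := Int.natCast_nonneg _
      omega
  rw [d4, one_pow, one_mul] at e1
  rw [← e1, abs_mul, abs_pow]
  have hn0 : v.num ≠ 0 := Rat.num_ne_zero.mpr hv0
  have h5 : 1 ≤ |v.num| := Int.one_le_abs hn0
  have h6 : (1 : ℤ) ≤ |v.num| ^ 12 := one_le_pow₀ h5
  nlinarith [abs_nonneg W.Δ]


/-- the curve `y² + x y = x³ - t x² - 4 d w² x + (4 t - 1) d w²` -/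
def crv (d t w : ℤ) : WeierstrassCurve ℤ :=
  ⟨1, -t, 0, -(4 * d * w ^ 2), (4 * t - 1) * d * w ^ 2⟩

theorem crv_Δ (d t w : ℤ) : (crv d t w).Δ =
    d * w ^ 2 * ((4 * t - 1) ^ 2 - 64 * d * w ^ 2) ^ 2 := by
  simp only [crv, WeierstrassCurve.Δ, WeierstrassCurve.b₂, WeierstrassCurve.b₄,
    WeierstrassCurve.b₆, WeierstrassCurve.b₈]
  ring

theorem crv_c₄ (d t w : ℤ) : (crv d t w).c₄ = (4 * t - 1) ^ 2 + 192 * d * w ^ 2 := by
  simp only [crv, WeierstrassCurve.c₄, WeierstrassCurve.b₂, WeierstrassCurve.b₄]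
  ring

theorem crv_two (d t w : ℤ) (x : ℚ) : 4 * x ^ 3 + (crv d t w).b₂ * x ^ 2 +
    2 * (crv d t w).b₄ * x + (crv d t w).b₆ =
      4 * (x - (4 * t - 1) / 4) * (x ^ 2 - d * (2 * w) ^ 2) := by
  simp only [crv, WeierstrassCurve.b₂, WeierstrassCurve.b₄, WeierstrassCurve.b₆]
  push_cast
  ring

theorem crv_coprime (d t w : ℤ) (h : IsCoprime (4 * t - 1) (d * w)) :
    IsCoprime (crv d t w).c₄ (crv d t w).Δ := by
  rw [crv_c₄, crv_Δ]
  set a : ℤ := 4 * t - 1 with ha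
  have hd : IsCoprime a d := h.of_isCoprime_of_dvd_right (Dvd.intro _ rfl)
  have hw : IsCoprime a w := h.of_isCoprime_of_dvd_right (Dvd.intro_left _ rfl)
  have hd2 : IsCoprime (a ^ 2) d := hd.pow_left
  have hw2 : IsCoprime (a ^ 2) w := hw.pow_left
  have h2 : IsCoprime a 2 := ⟨-1, 2 * t, by rw [ha]; ring⟩
  have h22 : IsCoprime (a ^ 2) 2 := h2.pow_left
  have c1 : IsCoprime (a ^ 2 + 192 * d * w ^ 2) d := by
    have e : a ^ 2 + 192 * d * w ^ 2 = a ^ 2 + d * (192 * w ^ 2) := by ring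
    rw [e]
    exact IsCoprime.add_mul_left_left hd2 _
  have c2 : IsCoprime (a ^ 2 + 192 * d * w ^ 2) w := by
    have e : a ^ 2 + 192 * d * w ^ 2 = a ^ 2 + w * (192 * d * w) := by ring
    rw [e]
    exact IsCoprime.add_mul_left_left hw2 _
  have q1 : IsCoprime (a ^ 2 - 64 * d * w ^ 2) d := by
    have e : a ^ 2 - 64 * d * w ^ 2 = a ^ 2 + d * (-64 * w ^ 2) := by ring
    rw [e]
    exact IsCoprime.add_mul_left_left hd2 _
  have q2 : IsCoprime (a ^ 2 - 64 * d * w ^ 2) w := by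
    have e : a ^ 2 - 64 * d * w ^ 2 = a ^ 2 + w * (-64 * d * w) := by ring
    rw [e]
    exact IsCoprime.add_mul_left_left hw2 _
  have q3 : IsCoprime (a ^ 2 - 64 * d * w ^ 2) 2 := by
    have e : a ^ 2 - 64 * d * w ^ 2 = a ^ 2 + 2 * (-32 * d * w ^ 2) := by ring
    rw [e]
    exact IsCoprime.add_mul_left_left h22 _
  have c3 : IsCoprime (a ^ 2 + 192 * d * w ^ 2) (a ^ 2 - 64 * d * w ^ 2) := by
    have e : a ^ 2 + 192 * d * w ^ 2 =
      2 ^ 8 * (d * w ^ 2) + (a ^ 2 - 64 * d * w ^ 2) * 1 := by ring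
    rw [e]
    refine IsCoprime.add_mul_left_left ?_ _
    exact (q3.pow_right (n := 8)).symm.mul_left ((q1.mul_right (q2.pow_right (n := 2))).symm)
  exact ((c1.mul_right (c2.pow_right (n := 2))).mul_right (c3.pow_right (n := 2)))

theorem rl_mono {n m : ℕ} (h : n.primeFactors ⊆ m.primeFactors) : rl n ≤ rl m :=
  Finset.sum_le_sum_of_subset_of_nonneg h fun q _ _ => logn_nonneg q

/-- the product of the primes dividing the discriminant -/
def cond (W : WeierstrassCurve ℤ) : ℕ := ∏ p ∈ W.Δ.natAbs.primeFactors, p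

theorem log_cond (W : WeierstrassCurve ℤ) : Real.log (cond W) = rl W.Δ.natAbs := by
  unfold cond rl
  rw [Nat.cast_prod, Real.log_prod]
  intro p hp
  exact_mod_cast (Nat.prime_of_mem_primeFactors hp).ne_zero

/-- the conductor is at most the radical of `d y Q` -/
theorem cond_le (d t w : ℤ) (hd : d ≠ 0) (hw : w ≠ 0)
    (hQ : (4 * t - 1) ^ 2 - d * (8 * w) ^ 2 ≠ 0) :
    Real.log (cond (crv d t w)) ≤ Real.log |(d : ℝ)| + rl (8 * w).natAbs +
      rl ((4 * t - 1) ^ 2 - d * (8 * w) ^ 2).natAbs := by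
  rw [log_cond]
  set Q : ℤ := (4 * t - 1) ^ 2 - d * (8 * w) ^ 2 with hQdef
  have hy : (8 * w) ≠ 0 := mul_ne_zero (by norm_num) hw
  have hd' : d.natAbs ≠ 0 := Int.natAbs_ne_zero.2 hd
  have hy' : (8 * w).natAbs ≠ 0 := Int.natAbs_ne_zero.2 hy
  have hQ' : Q.natAbs ≠ 0 := Int.natAbs_ne_zero.2 hQ
  have hn : d.natAbs * (8 * w).natAbs * Q.natAbs ≠ 0 := mul_ne_zero (mul_ne_zero hd' hy') hQ'
  have h1 : (crv d t w).Δ.natAbs.primeFactors ⊆
      (d.natAbs * (8 * w).natAbs * Q.natAbs).primeFactors := by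
    have hdvd : (crv d t w).Δ.natAbs ∣ (d.natAbs * (8 * w).natAbs * Q.natAbs) ^ 2 := by
      rw [← Int.natAbs_mul, ← Int.natAbs_mul, ← Int.natAbs_pow, Int.natAbs_dvd_natAbs]
      refine ⟨64 * d, ?_⟩
      rw [crv_Δ, hQdef]
      ring
    refine (Nat.primeFactors_mono hdvd (pow_ne_zero _ hn)).trans ?_
    rw [Nat.primeFactors_pow _ (by norm_num)]
  have h2 := rl_mono h1
  have h3 := rl_mul_le (mul_ne_zero hd' hy') hQ'
  have h4 := rl_mul_le hd' hy'
  have h5 := rl_le_log hd'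
  have h6 : ((d.natAbs : ℕ) : ℝ) = |(d : ℝ)| := by rw [Nat.cast_natAbs, Int.cast_abs]
  rw [h6] at h5
  linarith

end Pool.Agent.H902E
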