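import Pool.Agent.H902D.Thue
import Pool.Agent.H902D.Size

/-! Elements of norm `l * l0`. -/

set_option autoImplicit false

namespace Pool.Agent.H902E

open Zsqrtd Finset Pool.Agent.H902D

theorem wt_smul {d : ℤ} (k : ℤ) (γ : ℤ√d) : wt ((k : ℤ√d) * γ) = |(k : ℝ)| * wt γ := by
  unfold wt
  rw [re_smul, im_smul]
  push_cast
  rw [abs_mul, abs_mul]
  ring

theorem family (d : ℤ) (hd : ¬ IsSquare d) : ∃ M1 : ℕ, 0 < M1 ∧
    ∀ (L : Finset ℕ) (z n : ℕ), 1 ≤ z →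
      (∀ l ∈ L, l.Prime ∧ l ≡ 1 [MOD 4 * d.natAbs] ∧ d.natAbs + 1 < l ∧ l ≤ z) →
      M1 * (n + 1) ≤ L.card →
      ∃ (L1 : Finset ℕ) (l0 : ℕ) (β : L1 → ℤ√d) (φ : ∀ i : L1, ℤ√d →+* ZMod (i : ℕ)),
        L1 ⊆ L ∧ l0 ∈ L ∧ l0 ∉ L1 ∧ L1.card = n ∧
        (∀ i j, φ i (β j) ≠ 0) ∧ (∀ i, φ i (star (β i)) = 0) ∧
        (∀ i j, j ≠ i → φ i (star (β j)) ≠ 0) ∧
        (∀ i : L1, (β i).norm = ((i : ℕ) : ℤ) * (l0 : ℤ)) ∧
        ∀ i, wt (β i) ≤ ((1 + Real.sqrt (d.natAbs : ℝ)) * Real.sqrt z) ^ 2 := by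
  classical
  set D : ℕ := d.natAbs with hD
  set K : ℕ := (D + 1).factorial with hK
  have hK0 : 0 < K := Nat.factorial_pos _
  set T : Finset (ℤ × ℤ × ℤ) := Icc (-((D : ℤ) + 1)) ((D : ℤ) + 1) ×ˢ
    (Ico (0 : ℤ) K ×ˢ Ico (0 : ℤ) K) with hT
  have hTne : T.Nonempty := by
    refine ⟨(0, 0, 0), ?_⟩
    have hK1 : (0 : ℤ) < (K : ℤ) := by exact_mod_cast hK0
    rw [hT, mem_product, mem_product, mem_Icc, mem_Ico]
    exact ⟨⟨by simp only; omega, by simp only; omega⟩, ⟨le_rfl, hK1⟩, ⟨le_rfl, hK1⟩⟩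
  refine ⟨T.card, hTne.card_pos, fun L z n hz hL hcard => ?_⟩
  have hprime : ∀ i : L, (i : ℕ).Prime := fun i => (hL i i.2).1
  have hlt : ∀ i : L, d.natAbs + 1 < (i : ℕ) := fun i => (hL i i.2).2.2.1
  have hex : ∀ i : L, ∃ (β : ℤ√d) (φ : ℤ√d →+* ZMod (i : ℕ)), φ β ≠ 0 ∧ φ (star β) = 0 ∧
      |β.re| ≤ Nat.sqrt i ∧ |β.im| ≤ Nat.sqrt i ∧
      ∃ k : ℤ, k ≠ 0 ∧ k.natAbs ≤ d.natAbs + 1 ∧ β.norm = k * (i : ℕ) := fun i =>
    exists_beta d hd i (hprime i) (hL i i.2).2.1 (hlt i)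
  choose β φ hφ hφs hre him κ hκ0 hκ hnorm using hex
  have hkz : ∀ i j : L, ((κ j : ℤ) : ZMod (i : ℕ)) ≠ 0 := by
    intro i j h0
    rw [ZMod.intCast_zmod_eq_zero_iff_dvd] at h0
    have h2 := Nat.le_of_dvd (Int.natAbs_pos.2 (hκ0 j)) (Int.natCast_dvd.1 h0)
    have := hκ j
    have := hlt i
    omega
  have hfact : ∀ i : L, Fact (i : ℕ).Prime := fun i => ⟨hprime i⟩
  have hnz : ∀ i j : L, j ≠ i → ((β j).norm : ZMod (i : ℕ)) ≠ 0 := by
    intro i j hji h0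
    rw [hnorm j] at h0
    push_cast at h0
    rcases mul_eq_zero.1 h0 with h1 | h1
    · exact hkz i j h1
    · rw [ZMod.natCast_eq_zero_iff] at h1
      have h3 := (Nat.prime_dvd_prime_iff_eq (hprime i) (hprime j)).1 h1
      exact hji (Subtype.ext h3.symm)
  have hmul : ∀ i j : L, φ i (β j) * φ i (star (β j)) = ((β j).norm : ZMod (i : ℕ)) := by
    intro i j
    rw [← map_mul, ← norm_eq_mul_conj, map_intCast]
  have h1 : ∀ i j : L, φ i (β j) ≠ 0 := by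
    intro i j
    by_cases hji : j = i
    · subst hji
      exact hφ j
    · intro h0
      apply hnz i j hji
      rw [← hmul, h0, zero_mul]
  have h3 : ∀ i j : L, j ≠ i → φ i (star (β j)) ≠ 0 := by
    intro i j hji h0
    apply hnz i j hji
    rw [← hmul, h0, mul_zero]
  -- the classes
  set c : L → ℤ × ℤ × ℤ := fun i => (κ i, (β i).re % (K : ℤ), (β i).im % (K : ℤ)) with hc
  have hKz : (0 : ℤ) < K := by exact_mod_cast hK0
  have hmaps : ∀ i ∈ (Finset.univ : Finset L), c i ∈ T := by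
    intro i _
    rw [hT, mem_product, mem_product, mem_Icc, mem_Ico]
    have := hκ i
    refine ⟨⟨by simp only [hc]; omega, by simp only [hc]; omega⟩,
      ⟨Int.emod_nonneg _ hKz.ne', Int.emod_lt_of_pos _ hKz⟩,
      mem_Ico.2 ⟨Int.emod_nonneg _ hKz.ne', Int.emod_lt_of_pos _ hKz⟩⟩
  obtain ⟨y, -, hy⟩ := Finset.exists_le_card_fiber_of_mul_le_card_of_maps_to hmaps hTne
    (show T.card * (n + 1) ≤ (Finset.univ : Finset L).card by
      rw [Finset.card_univ, Fintype.card_coe]; exact hcard)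
  obtain ⟨U, hUsub, hUcard⟩ := Finset.exists_subset_card_eq hy
  have hUne : U.Nonempty := by
    rw [← Finset.card_pos]
    omega
  obtain ⟨i0, hi0⟩ := hUne
  have hcU : ∀ i ∈ U, c i = y := fun i hi => (mem_filter.1 (hUsub hi)).2
  set L1 : Finset ℕ := (U.erase i0).map (Function.Embedding.subtype _) with hL1
  have hmemL1 : ∀ l ∈ L1, ∃ h : l ∈ L, (⟨l, h⟩ : L) ∈ U.erase i0 := by
    intro l hl
    rw [hL1, mem_map] at hl
    obtain ⟨i, hi, rfl⟩ := hl
    exact ⟨i.2, hi⟩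
  set t : L1 → L := fun i => ⟨(i : ℕ), (hmemL1 i i.2).1⟩ with ht
  have htU : ∀ i : L1, t i ∈ U := fun i => Finset.mem_of_mem_erase (hmemL1 i i.2).2
  have htne : ∀ i : L1, t i ≠ i0 := fun i => Finset.ne_of_mem_erase (hmemL1 i i.2).2
  have htinj : ∀ i j : L1, j ≠ i → t j ≠ t i := by
    intro i j hji h
    exact hji (Subtype.ext (congrArg (fun w : L => (w : ℕ)) h))
  set k : ℤ := κ i0 with hk
  have hk0 : k ≠ 0 := hκ0 i0
  have hcc : ∀ i : L1, c (t i) = c i0 := fun i => by rw [hcU _ (htU i), hcU _ hi0]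
  have hκt : ∀ i : L1, κ (t i) = k := fun i => congrArg Prod.fst (hcc i)
  have hkK : (k : ℤ) ∣ (K : ℤ) := by
    rw [← Int.natAbs_dvd_natAbs, Int.natAbs_natCast]
    exact Nat.dvd_factorial (Int.natAbs_pos.2 hk0) (hκ i0)
  have hdvd : ∀ i : L1, ((k : ℤ) : ℤ√d) ∣ β (t i) * star (β i0) := by
    intro i
    have e1 : β (t i) * star (β i0) = (β (t i) - β i0) * star (β i0) + β i0 * star (β i0) := by
      ring
    rw [e1, ← norm_eq_mul_conj, hnorm i0]
    refine dvd_add (Dvd.dvd.mul_right ?_ _) ?_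
    · rw [intCast_dvd, re_sub, im_sub]
      have e2 : (β (t i)).re % (K : ℤ) = (β i0).re % (K : ℤ) :=
        congrArg (fun w : ℤ × ℤ × ℤ => w.2.1) (hcc i)
      have e3 : (β (t i)).im % (K : ℤ) = (β i0).im % (K : ℤ) :=
        congrArg (fun w : ℤ × ℤ × ℤ => w.2.2) (hcc i)
      exact ⟨hkK.trans (Int.ModEq.dvd (show (β i0).re ≡ (β (t i)).re [ZMOD K] from e2.symm)),
        hkK.trans (Int.ModEq.dvd (show (β i0).im ≡ (β (t i)).im [ZMOD K] from e3.symm))⟩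
    · rw [Int.cast_mul]
      exact Dvd.intro _ rfl
  choose δ hδ using hdvd
  have hkk : k * k ≠ 0 := mul_ne_zero hk0 hk0
  refine ⟨L1, (i0 : ℕ), δ, fun i => φ (t i), ?_, i0.2, ?_, ?_, ?_, ?_, ?_, ?_, ?_⟩
  · intro l hl
    exact (hmemL1 l hl).1
  · intro h
    exact (Finset.ne_of_mem_erase (hmemL1 _ h).2) rfl
  · rw [hL1, card_map, card_erase_of_mem hi0, hUcard]
    omega
  · intro i j h0
    have e1 := congrArg (φ (t i)) (hδ j)
    rw [map_mul, map_mul, h0, mul_zero] at e1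
    exact mul_ne_zero (h1 (t i) (t j)) (h3 (t i) i0 (htne i).symm) e1
  · intro i
    have e1 := congrArg (φ (t i)) (congrArg star (hδ i))
    rw [star_mul, star_star, star_mul, map_mul, map_mul, hφs, mul_zero] at e1
    have e2 : star ((k : ℤ) : ℤ√d) = ((k : ℤ) : ℤ√d) := by
      ext <;> simp
    rw [e2, map_intCast] at e1
    rcases mul_eq_zero.1 e1.symm with h4 | h4
    · exact h4
    · exact absurd h4 (hkz (t i) i0)
  · intro i j hji h0
    have e1 := congrArg (φ (t i)) (congrArg star (hδ j))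
    rw [star_mul, star_star, star_mul, map_mul, map_mul, h0, zero_mul] at e1
    exact mul_ne_zero (h1 (t i) i0) (h3 (t i) (t j) (htinj i j hji)) e1
  · intro i
    have e1 := congrArg Zsqrtd.norm (hδ i)
    rw [Zsqrtd.norm_mul, Zsqrtd.norm_mul, norm_conj, norm_intCast, hnorm (t i), hnorm i0, hκt i, ← hk] at e1
    apply mul_left_cancel₀ hkk
    rw [← e1]
    show k * ((i : ℕ) : ℤ) * (k * ((i0 : ℕ) : ℤ)) = _
    ring
  · intro i
    have hWβ : ∀ j : L, wt (β j) ≤ (1 + Real.sqrt (d.natAbs : ℝ)) * Real.sqrt z := by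
      intro j
      have h4 : ((Nat.sqrt (j : ℕ) : ℕ) : ℝ) ≤ Real.sqrt z :=
        (Real.nat_sqrt_le_real_sqrt).trans (Real.sqrt_le_sqrt (by exact_mod_cast (hL j j.2).2.2.2))
      have h5 : |((β j).re : ℝ)| ≤ Real.sqrt z := by
        refine le_trans ?_ h4
        exact_mod_cast hre j
      have h6 : |((β j).im : ℝ)| ≤ Real.sqrt z := by
        refine le_trans ?_ h4
        exact_mod_cast him j
      have h7 : 0 ≤ Real.sqrt (d.natAbs : ℝ) := Real.sqrt_nonneg _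
      unfold wt
      nlinarith
    have e1 := congrArg wt (hδ i)
    rw [wt_smul] at e1
    have e2 : wt (β (t i) * star (β i0)) ≤
        ((1 + Real.sqrt (d.natAbs : ℝ)) * Real.sqrt z) ^ 2 := by
      refine (wt_mul _ _).trans ?_
      rw [wt_star, sq]
      exact mul_le_mul (hWβ _) (hWβ _) (wt_nonneg _) (by positivity)
    have e3 : (1 : ℝ) ≤ |(k : ℝ)| := by
      have : 1 ≤ |k| := Int.one_le_abs hk0
      exact_mod_cast this
    have e4 := wt_nonneg (δ i)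
    rw [e1] at e2
    nlinarith

end Pool.Agent.H902E
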