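import Pool.Agent.H902E.Main

/-! Semistable curves with a given quadratic two-division field and large discriminant. -/

set_option autoImplicit false

namespace Pool.Agent.H902E

open Zsqrtd Finset Filter Pool.Agent.H902D

/-- `√t / log t` is increasing -/
theorem mono_sqrt_log {t T : ℝ} (ht : Real.exp 2 ≤ t) (htT : t ≤ T) :
    Real.sqrt t / Real.log t ≤ Real.sqrt T / Real.log T := by
  have h1 : (1 : ℝ) < Real.exp 2 := by
    rw [← Real.exp_zero]
    exact Real.exp_lt_exp.2 (by norm_num)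
  have ht1 : 1 < t := by linarith
  have hT1 : 1 < T := by linarith
  have hlt : 0 < Real.log t := Real.log_pos ht1
  have hlT : 0 < Real.log T := Real.log_pos hT1
  have hst : 0 < Real.sqrt t := Real.sqrt_pos.2 (by linarith)
  have hsT : 0 < Real.sqrt T := Real.sqrt_pos.2 (by linarith)
  have h2 := Real.log_div_sqrt_antitoneOn (show t ∈ {x : ℝ | Real.exp 2 ≤ x} from ht)
    (show T ∈ {x : ℝ | Real.exp 2 ≤ x} from ht.trans htT) htT
  simp only at h2
  rw [div_le_div_iff₀ hsT hst] at h2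
  rw [div_le_div_iff₀ hlt hlT]
  linarith

theorem main (d : ℤ) (hd : ¬ IsSquare d) : ∃ κ : ℝ, 0 < κ ∧ ∀ X : ℝ, ∃ t w : ℤ, w ≠ 0 ∧
    IsCoprime (4 * t - 1) (d * w) ∧ (4 * t - 1) ^ 2 - d * (8 * w) ^ 2 ≠ 0 ∧
    X < cond (crv d t w) ∧
    (cond (crv d t w) : ℝ) ^ 6 * Real.exp (κ * (Real.sqrt (Real.log (cond (crv d t w))) /
      Real.log (Real.log (cond (crv d t w))))) < |((crv d t w).Δ : ℝ)| := by
  classical
  have hd0 : d ≠ 0 := by
    rintro rfl
    exact hd ⟨0, rfl⟩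
  have hD : 0 < d.natAbs := Int.natAbs_pos.2 hd0
  obtain ⟨M1, hM1, hfam⟩ := family d hd
  obtain ⟨c0, hc0, N0, hN0⟩ := Pool.Agent.H131DG.class_primes (4 * d.natAbs) (by omega)
  have hM1R : (0 : ℝ) < M1 := by exact_mod_cast hM1
  set c1 : ℝ := c0 / M1 with hc1
  have hc10 : 0 < c1 := div_pos hc0 hM1R
  have hldabs : 0 ≤ Real.log |(d : ℝ)| := by
    refine Real.log_nonneg ?_
    have : 1 ≤ |d| := Int.one_le_abs hd0
    exact_mod_cast this
  set C' : ℝ := Real.log |(d : ℝ)| + 17 * c1 + 1 with hC'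
  have hC'1 : 1 ≤ C' := by rw [hC']; linarith
  have hsC' : 0 < Real.sqrt C' := Real.sqrt_pos.2 (by linarith)
  refine ⟨c1 / Real.sqrt C', by positivity, fun X => ?_⟩
  -- the prime `p`
  obtain ⟨p, hpN, hp⟩ := Nat.exists_infinite_primes
    (⌈X⌉₊ + ⌈Real.exp (Real.exp 2)⌉₊ + d.natAbs + 3)
  have hpX : X < p := by
    have h1 := Nat.le_ceil X
    have h2 : ((⌈X⌉₊ + ⌈Real.exp (Real.exp 2)⌉₊ + d.natAbs + 3 : ℕ) : ℝ) ≤ p := by
      exact_mod_cast hpN
    push_cast at h2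
    have h3 : (0 : ℝ) ≤ (⌈Real.exp (Real.exp 2)⌉₊ : ℝ) := Nat.cast_nonneg _
    have h4 : (0 : ℝ) ≤ (d.natAbs : ℝ) := Nat.cast_nonneg _
    linarith
  have hpe : Real.exp (Real.exp 2) ≤ p := by
    have h1 := Nat.le_ceil (Real.exp (Real.exp 2))
    have h2 : ((⌈X⌉₊ + ⌈Real.exp (Real.exp 2)⌉₊ + d.natAbs + 3 : ℕ) : ℝ) ≤ p := by
      exact_mod_cast hpN
    push_cast at h2
    have h3 : (0 : ℝ) ≤ (⌈X⌉₊ : ℝ) := Nat.cast_nonneg _
    have h4 : (0 : ℝ) ≤ (d.natAbs : ℝ) := Nat.cast_nonneg _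
    linarith
  have hpd : d.natAbs + 2 < p := by omega
  set lp : ℝ := Real.log p with hlp
  have hlp0 : 0 < lp := Real.log_pos (by exact_mod_cast hp.one_lt)
  set C3 : ℝ := 6 * Real.log (64 * c1 + 1) + 6 * Real.log 128 + 18 * lp +
    6 * Real.log |(d : ℝ)| + Real.log 1024 with hC3
  have hl64 : 0 ≤ Real.log (64 * c1 + 1) := Real.log_nonneg (by linarith)
  have hl128 : 0 ≤ Real.log 128 := Real.log_nonneg (by norm_num)
  have hl1024 : 0 ≤ Real.log 1024 := Real.log_nonneg (by norm_num)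
  have hC30 : 0 ≤ C3 := by rw [hC3]; positivity
  obtain ⟨z, hzN, hzA, hzB, hzl⟩ := choose_z2 c1 (C3 + 25)
    ((1 + Real.sqrt (d.natAbs : ℝ)) ^ 2) hc10 (N0 + 500 * p + 3)
  have hz1 : (1 : ℝ) < z := by exact_mod_cast (show 1 < z by omega)
  have hz0 : (0 : ℝ) < z := by linarith
  have hlz : 0 < Real.log (z : ℝ) := Real.log_pos hz1
  have hl2 : (0.69 : ℝ) < Real.log 2 := by
    have := Real.log_two_gt_d9
    linarith
  have hs0 : 0 ≤ Real.sqrt (d.natAbs : ℝ) := Real.sqrt_nonneg _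
  set u : ℝ := c1 * ((z : ℝ) / Real.log z) with hu
  have hulz : u * Real.log z = c1 * z := by
    rw [hu]
    field_simp
  -- the number of primes
  set n1 : ℕ := ⌊u⌋₊ with hn1
  have hu0 : 0 ≤ u := by rw [hu]; positivity
  have hn1a : (n1 : ℝ) ≤ u := Nat.floor_le hu0
  have hn1b : u < n1 + 1 := Nat.lt_floor_add_one _
  have hn1pos : 0 < n1 := by
    have : (0 : ℝ) < n1 := by linarith
    exact_mod_cast this
  obtain ⟨n, hn⟩ : ∃ n, n1 = n + 1 := ⟨n1 - 1, by omega⟩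
  have hnR : (n1 : ℝ) = n + 1 := by rw [hn]; push_cast; ring
  set L : Finset ℕ := (Icc 1 z).filter (fun q => q.Prime ∧ p < q ∧ q ≡ 1 [MOD 4 * d.natAbs])
    with hL
  have hcardL : M1 * (n + 1) ≤ L.card := by
    have h1 := hN0 z (by omega) p (by omega)
    have h2 : (M1 : ℝ) * n1 ≤ c0 * ((z : ℝ) / Real.log z) := by
      have h3 := mul_le_mul_of_nonneg_left hn1a hM1R.le
      have h4 : (M1 : ℝ) * u = c0 * ((z : ℝ) / Real.log z) := by
        rw [hu, hc1]
        field_simp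
      linarith
    rw [← hn]
    exact_mod_cast h2.trans h1
  have hLprop : ∀ l ∈ L, l.Prime ∧ l ≡ 1 [MOD 4 * d.natAbs] ∧ p < l ∧ l ≤ z := by
    intro l hl
    rw [hL, mem_filter, mem_Icc] at hl
    exact ⟨hl.2.1, hl.2.2.2, hl.2.2.1, hl.1.2⟩
  obtain ⟨L1, l0, β, φ, hL1sub, hl0mem, hl0not, hL1card, h1, h2, h3, hnorm, hwt⟩ :=
    hfam L z n (by omega) (fun l hl => ⟨(hLprop l hl).1, (hLprop l hl).2.1,
      by have := (hLprop l hl).2.2.1; omega, (hLprop l hl).2.2.2⟩) hcardL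
  -- sizes
  set W : ℝ := ((1 + Real.sqrt (d.natAbs : ℝ)) * Real.sqrt z) ^ 2 with hW
  have hsz : 1 + Real.sqrt (d.natAbs : ℝ) ≤ Real.sqrt z := by
    rw [Real.le_sqrt (by linarith) hz0.le]
    exact hzB
  have hsz1 : 1 ≤ Real.sqrt (z : ℝ) := by
    rw [Real.one_le_sqrt]
    exact hz1.le
  have hW1 : 1 ≤ W := by
    rw [hW]
    refine one_le_pow₀ ?_
    nlinarith
  have hWz : W ≤ (z : ℝ) ^ 2 := by
    rw [hW]
    refine pow_le_pow_left₀ (by positivity) ?_ _
    calc (1 + Real.sqrt (d.natAbs : ℝ)) * Real.sqrt z ≤ Real.sqrt z * Real.sqrt z :=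
          mul_le_mul_of_nonneg_right hsz (Real.sqrt_nonneg _)
      _ = z := Real.mul_self_sqrt hz0.le
  have hlW : Real.log W ≤ 2 * Real.log z := by
    have h4 : Real.log W ≤ Real.log ((z : ℝ) ^ 2) := Real.log_le_log (by linarith) hWz
    have h5 : Real.log ((z : ℝ) ^ 2) = 2 * Real.log z := by
      rw [Real.log_pow]
      norm_num
    linarith
  have hlW0 : 0 ≤ Real.log W := Real.log_nonneg hW1
  have hβ0 : ∀ i, β i ≠ 0 := by
    intro i h
    apply h1 i i
    rw [h, map_zero]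
  set E : ℕ := 8 * z with hE
  obtain ⟨M, Λ, hM, hΛ⟩ := arch d hd β W hW1 hwt hβ0 E
  have hMpos : 0 < M := Fin.pos (Λ 0)
  have hnlz : (n : ℝ) * Real.log z ≤ c1 * z := by
    have h4 := mul_le_mul_of_nonneg_right (show (n : ℝ) ≤ u by linarith) hlz.le
    rwa [hulz] at h4
  have hMle : (M : ℝ) ≤ (64 * c1 + 1) * (z : ℝ) ^ 2 := by
    rw [Fintype.card_coe, hL1card] at hM
    have h4 : (n : ℝ) * (E : ℝ) * Real.log W ≤ 16 * c1 * (z : ℝ) ^ 2 := by
      calc (n : ℝ) * (E : ℝ) * Real.log W ≤ (n : ℝ) * (E : ℝ) * (2 * Real.log z) :=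
            mul_le_mul_of_nonneg_left hlW (by positivity)
        _ = 16 * z * (n * Real.log z) := by rw [hE]; push_cast; ring
        _ ≤ 16 * z * (c1 * z) := mul_le_mul_of_nonneg_left hnlz (by positivity)
        _ = _ := by ring
    have h5 : (1 : ℝ) ≤ (z : ℝ) ^ 2 := one_le_pow₀ hz1.le
    nlinarith
  have hlM : Real.log M ≤ Real.log (64 * c1 + 1) + 2 * Real.log z := by
    have h4 := Real.log_le_log (by exact_mod_cast hMpos) hMle
    rwa [Real.log_mul (by linarith) (by positivity), Real.log_pow, Nat.cast_ofNat] at h4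
  have hlM0 : 0 ≤ Real.log M := Real.log_nonneg (by exact_mod_cast hMpos)
  -- the exponent
  set q : ℕ := E ^ n / (M * 128) with hq
  set k : ℕ := Nat.log p q - 1 with hk
  have hlE : Real.log (E : ℝ) = 3 * Real.log 2 + Real.log z := by
    rw [hE]
    push_cast
    rw [Real.log_mul (by norm_num) hz0.ne', show (8 : ℝ) = 2 ^ 3 by norm_num, Real.log_pow]
    push_cast
    ring
  have hE0 : (0 : ℝ) < E := by
    rw [hE]; push_cast; linarith
  have hp0 : (0 : ℝ) < p := by exact_mod_cast hp.pos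
  have hF2 : n * Real.log (E : ℝ) ≤ Real.log M + Real.log 128 + (k + 2) * lp := by
    have h4 : E ^ n ≤ M * 128 * p ^ (k + 2) := by
      have h5 : q < p ^ (Nat.log p q + 1) := Nat.lt_pow_succ_log_self hp.one_lt q
      have h6 : p ^ (Nat.log p q + 1) ≤ p ^ (k + 2) := Nat.pow_le_pow_right hp.pos (by omega)
      have h7 : E ^ n < (M * 128) * (q + 1) := Nat.lt_mul_div_succ _ (by omega)
      exact h7.le.trans (Nat.mul_le_mul_left _ (by omega))
    have h5 : ((E : ℝ)) ^ n ≤ (M : ℝ) * 128 * (p : ℝ) ^ (k + 2) := by exact_mod_cast h4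
    have h6 := Real.log_le_log (by positivity) h5
    have hMR : (M : ℝ) ≠ 0 := by exact_mod_cast hMpos.ne'
    rw [Real.log_pow, Real.log_mul (by positivity) (by positivity),
      Real.log_mul hMR (by norm_num), Real.log_pow] at h6
    push_cast at h6
    linarith
  have hkbig : (0 : ℝ) < k := by
    have h4 : (n : ℝ) * 3 * Real.log 2 ≤ n * Real.log (E : ℝ) := by
      rw [hlE]
      have : 0 ≤ (n : ℝ) * Real.log z := by positivity
      nlinarith
    have h5 : (n : ℝ) * 2 ≤ n * 3 * Real.log 2 := by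
      have : (0 : ℝ) ≤ n := Nat.cast_nonneg _
      nlinarith
    have h6 : 2 * lp < (k + 2) * lp := by
      rw [hC3] at hzA
      linarith
    have h7 := lt_of_mul_lt_mul_right h6 hlp0.le
    linarith
  have hk0 : k ≠ 0 := by
    intro h
    rw [h] at hkbig
    norm_num at hkbig
  have hpE : M * (64 * (2 * p ^ k)) < E ^ n := by
    have h4 : Nat.log p q = k + 1 := by omega
    have hq0 : q ≠ 0 := by
      intro h0
      rw [h0, Nat.log_zero_right] at h4
      omega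
    have h5 : p ^ (k + 1) ≤ q := by
      rw [← h4]
      exact Nat.pow_log_le_self p hq0
    have h6 : p ^ k < p ^ (k + 1) := Nat.pow_lt_pow_right hp.one_lt (Nat.lt_succ_self k)
    have h7 : (M * 128) * q ≤ E ^ n := Nat.mul_div_le _ _
    have h8 : (M * 128) * p ^ k < (M * 128) * q := by
      refine Nat.mul_lt_mul_of_pos_left (by omega) (by omega)
    calc M * (64 * (2 * p ^ k)) = (M * 128) * p ^ k := by ring
      _ < _ := h8.trans_le h7
  obtain ⟨t, w, hw0, hcop, hpy, hpw, hQ0, hyW, hyQ, hQ⟩ := point d hd p k E z M n hp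
    (by omega) hk0 L1 l0 β φ (fun l hl => by
      have h4 := hLprop l (hL1sub hl)
      exact ⟨h4.1, h4.2.2.1, by have := h4.2.2.1; omega, h4.2.2.2⟩)
    (by
      have h4 := hLprop l0 hl0mem
      exact ⟨h4.1, h4.2.2.1, by have := h4.2.2.1; omega, h4.2.2.2⟩)
    hL1card h1 h2 h3 hnorm W hW1 hwt Λ hΛ hpE
  set y : ℤ := 8 * w with hy
  have hy0 : y ≠ 0 := mul_ne_zero (by norm_num) hw0
  set Q : ℤ := (4 * t - 1) ^ 2 - d * y ^ 2 with hQdef
  have hyR : (0 : ℝ) < |(y : ℝ)| := abs_pos.2 (by exact_mod_cast hy0)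
  -- the conductor
  have hcond := cond_le d t w hd0 hw0 hQ0
  have hry : rl y.natAbs ≤ Real.log |(y : ℝ)| - ((k : ℝ) - 1) * lp := by
    have h4 := rl_pow_dvd hp hk0 (Int.natAbs_ne_zero.2 hy0) (Int.natCast_dvd.1 hpy)
    rwa [Nat.cast_natAbs, Int.cast_abs] at h4
  have hrQ : rl Q.natAbs ≤ (n1 : ℝ) * Real.log z := by
    have h4 := rl_small (n := Q.natAbs) (z := z) (A := 0) (insert l0 L1) (by
      intro l hl
      rw [mem_insert] at hl
      rcases hl with rfl | hl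
      · exact (hLprop _ hl0mem).2.2.2
      · exact (hLprop _ (hL1sub hl)).2.2.2) (fun q hq hdvd =>
        Or.inl (hQ q hq (Int.natCast_dvd.2 hdvd)))
    rw [card_insert_of_notMem hl0not, hL1card, ← hn] at h4
    simpa using h4
  have hlogN : Real.log (cond (crv d t w)) ≤ Real.log |(d : ℝ)| + Real.log |(y : ℝ)| -
      ((k : ℝ) - 1) * lp + n1 * Real.log z := by
    have h4 : (8 * w).natAbs = y.natAbs := rfl
    linarith
  have hyup : Real.log |(y : ℝ)| ≤ 16 * c1 * (z : ℝ) ^ 2 := by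
    have h4 := Real.log_le_log hyR hyW
    rw [Real.log_pow] at h4
    calc Real.log |(y : ℝ)| ≤ ((n * E : ℕ) : ℝ) * Real.log W := h4
      _ ≤ ((n * E : ℕ) : ℝ) * (2 * Real.log z) :=
          mul_le_mul_of_nonneg_left hlW (Nat.cast_nonneg _)
      _ = 16 * z * (n * Real.log z) := by rw [hE]; push_cast; ring
      _ ≤ 16 * z * (c1 * z) := mul_le_mul_of_nonneg_left hnlz (by positivity)
      _ = _ := by ring
  have hn1lz : (n1 : ℝ) * Real.log z ≤ c1 * z := by
    have h4 := mul_le_mul_of_nonneg_right hn1a hlz.le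
    rwa [hulz] at h4
  have hk1 : (1 : ℝ) ≤ k := by exact_mod_cast Nat.one_le_iff_ne_zero.2 hk0
  have hNup : Real.log (cond (crv d t w)) ≤ C' * (z : ℝ) ^ 2 := by
    have h4 : (1 : ℝ) ≤ (z : ℝ) ^ 2 := one_le_pow₀ hz1.le
    have h5 : (z : ℝ) ≤ (z : ℝ) ^ 2 := by nlinarith
    have h6 : 0 ≤ ((k : ℝ) - 1) * lp := mul_nonneg (by linarith) hlp0.le
    have h7 : c1 * (z : ℝ) ≤ c1 * (z : ℝ) ^ 2 := mul_le_mul_of_nonneg_left h5 hc10.le
    have h8 : Real.log |(d : ℝ)| ≤ Real.log |(d : ℝ)| * (z : ℝ) ^ 2 := by nlinarith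
    rw [hC']
    nlinarith
  -- the conductor is large
  have hΔeq := crv_Δ d t w
  have hΔQ : (crv d t w).Δ = d * w ^ 2 * Q ^ 2 := by
    rw [hΔeq, hQdef, hy]
    ring
  have hΔ0 : (crv d t w).Δ ≠ 0 := by
    rw [hΔQ]
    exact mul_ne_zero (mul_ne_zero hd0 (pow_ne_zero _ hw0)) (pow_ne_zero _ hQ0)
  have hpcond : p ≤ cond (crv d t w) := by
    unfold cond
    refine Nat.le_of_dvd (Finset.prod_pos fun q hq => (Nat.prime_of_mem_primeFactors hq).pos)
      (Finset.dvd_prod_of_mem (fun q => q) (Nat.mem_primeFactors.2 ⟨hp, ?_,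
        Int.natAbs_ne_zero.2 hΔ0⟩))
    rw [← Int.natCast_dvd, hΔQ]
    exact Dvd.dvd.mul_right (Dvd.dvd.mul_left (Dvd.dvd.pow hpw two_ne_zero) _) _
  have hpcondR : (p : ℝ) ≤ cond (crv d t w) := by exact_mod_cast hpcond
  have hcond0 : (0 : ℝ) < cond (crv d t w) := by linarith
  have htlow : Real.exp 2 ≤ Real.log (cond (crv d t w)) := by
    rw [Real.le_log_iff_exp_le hcond0]
    linarith
  -- the error term
  have herr : c1 / Real.sqrt C' * (Real.sqrt (Real.log (cond (crv d t w))) /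
      Real.log (Real.log (cond (crv d t w)))) ≤ u := by
    have h4 := mono_sqrt_log htlow hNup
    have h5 : Real.sqrt (C' * (z : ℝ) ^ 2) = Real.sqrt C' * z := by
      rw [Real.sqrt_mul (by linarith), Real.sqrt_sq hz0.le]
    have h6 : Real.log z ≤ Real.log (C' * (z : ℝ) ^ 2) := by
      rw [Real.log_mul (by linarith) (by positivity), Real.log_pow, Nat.cast_ofNat]
      have := Real.log_nonneg hC'1
      linarith
    rw [h5] at h4
    have h7 : Real.sqrt C' * z / Real.log (C' * (z : ℝ) ^ 2) ≤ Real.sqrt C' * z / Real.log z :=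
      div_le_div_of_nonneg_left (by positivity) hlz h6
    calc c1 / Real.sqrt C' * (Real.sqrt (Real.log (cond (crv d t w))) /
        Real.log (Real.log (cond (crv d t w)))) ≤
        c1 / Real.sqrt C' * (Real.sqrt C' * z / Real.log z) :=
          mul_le_mul_of_nonneg_left (h4.trans h7) (by positivity)
      _ = u := by
          rw [hu]
          field_simp
  -- the discriminant
  have hΔlow : 6 * Real.log |(y : ℝ)| - Real.log 1024 ≤ Real.log |((crv d t w).Δ : ℝ)| := by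
    have h4 : |(y : ℝ)| ^ 6 / 1024 ≤ |((crv d t w).Δ : ℝ)| := by
      have h5 : |((crv d t w).Δ : ℝ)| = |(d : ℝ)| * ((w : ℝ) ^ 2 * |(Q : ℝ)| ^ 2) := by
        rw [hΔQ]
        push_cast
        rw [abs_mul, abs_mul, abs_of_nonneg (sq_nonneg (w : ℝ)), abs_pow]
        ring
      have h6 : (1 : ℝ) ≤ |(d : ℝ)| := by
        have : 1 ≤ |d| := Int.one_le_abs hd0
        exact_mod_cast this
      have h7 : (w : ℝ) ^ 2 = |(y : ℝ)| ^ 2 / 64 := by
        rw [sq_abs, hy]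
        push_cast
        ring
      have h8 : |(y : ℝ)| ^ 2 / 4 ≤ |(Q : ℝ)| := by
        rw [sq_abs]
        linarith
      have h9 : (|(y : ℝ)| ^ 2 / 4) ^ 2 ≤ |(Q : ℝ)| ^ 2 :=
        pow_le_pow_left₀ (by positivity) h8 _
      have h10 : |(y : ℝ)| ^ 2 / 64 * (|(y : ℝ)| ^ 2 / 4) ^ 2 ≤
          |(y : ℝ)| ^ 2 / 64 * |(Q : ℝ)| ^ 2 := mul_le_mul_of_nonneg_left h9 (by positivity)
      have h11 : 0 ≤ |(y : ℝ)| ^ 2 / 64 * |(Q : ℝ)| ^ 2 := by positivity
      rw [h5, h7]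
      calc |(y : ℝ)| ^ 6 / 1024 = |(y : ℝ)| ^ 2 / 64 * (|(y : ℝ)| ^ 2 / 4) ^ 2 := by ring
        _ ≤ |(y : ℝ)| ^ 2 / 64 * |(Q : ℝ)| ^ 2 := h10
        _ ≤ _ := le_mul_of_one_le_left h11 h6
    have h5 := Real.log_le_log (by positivity) h4
    rw [Real.log_div (by positivity) (by norm_num), Real.log_pow] at h5
    push_cast at h5
    exact h5
  refine ⟨t, w, hw0, hcop, hQ0, hpX.trans_le hpcondR, ?_⟩
  have hΔpos : 0 < |((crv d t w).Δ : ℝ)| := abs_pos.2 (by exact_mod_cast hΔ0)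
  rw [← Real.exp_log hΔpos, ← Real.exp_log (pow_pos hcond0 6), ← Real.exp_add,
    Real.exp_lt_exp, Real.log_pow]
  push_cast
  have hgain : 12 * (n : ℝ) + n * Real.log z * 6 ≤
      6 * (((k : ℝ) - 1) * lp) + 6 * Real.log M + 6 * Real.log 128 + 18 * lp := by
    have h4 : (n : ℝ) * Real.log (E : ℝ) = 3 * Real.log 2 * n + n * Real.log z := by
      rw [hlE]; ring
    have h5 : 2 * (n : ℝ) ≤ 3 * Real.log 2 * n := by
      have : (0 : ℝ) ≤ n := Nat.cast_nonneg _
      nlinarith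
    linarith
  have hn1z : (n1 : ℝ) * Real.log z = n * Real.log z + Real.log z := by
    rw [hnR]; ring
  rw [hC3] at hzA
  linarith

end Pool.Agent.H902E
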