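import Pool.Agent.H902E.Pigeon
import Pool.Agent.H902E.Arch
import Pool.Agent.H902E.Family
import Pool.Agent.H902E.Curve
import Pool.Agent.H131DG.Primes

/-! Semistable curves with a given quadratic two-division field and large discriminant. -/

set_option autoImplicit false

namespace Pool.Agent.H902E

open Zsqrtd Finset Filter Pool.Agent.H902D

theorem choose_z2 (c1 A B : ℝ) (hc1 : 0 < c1) (N : ℕ) : ∃ z : ℕ, N ≤ z ∧
    A ≤ c1 * (z / Real.log z) ∧ B ≤ z ∧ 18 * Real.log z ≤ c1 * (z / Real.log z) := by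
  have h2 := Real.tendsto_pow_log_div_mul_add_atTop 1 0 1 one_ne_zero
  have h2' := Real.tendsto_pow_log_div_mul_add_atTop 1 0 2 one_ne_zero
  have h1 : Tendsto (fun z : ℕ => c1 * ((z : ℝ) / Real.log z)) atTop atTop := by
    refine Tendsto.const_mul_atTop hc1 ?_
    have h3 : Tendsto (fun x : ℝ => x / Real.log x) atTop atTop := by
      have h4 : Tendsto (fun x : ℝ => (Real.log x / x)⁻¹) atTop atTop := by
        refine Tendsto.inv_tendsto_nhdsGT_zero ?_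
        rw [tendsto_nhdsWithin_iff]
        refine ⟨by simpa using h2, ?_⟩
        filter_upwards [eventually_gt_atTop 1] with x hx
        exact div_pos (Real.log_pos hx) (by linarith)
      refine h4.congr fun x => ?_
      rw [inv_div]
    exact h3.comp tendsto_natCast_atTop_atTop
  have h6 : ∀ᶠ z : ℕ in atTop, 18 * Real.log z ≤ c1 * (z / Real.log z) := by
    have h7 : Tendsto (fun z : ℕ => Real.log (z : ℝ) ^ 2 / (z : ℝ)) atTop (nhds 0) := by
      have h8 := h2'.comp (tendsto_natCast_atTop_atTop (R := ℝ))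
      refine h8.congr fun z => ?_
      simp [Function.comp]
    filter_upwards [h7.eventually (gt_mem_nhds (show (0 : ℝ) < c1 / 18 by positivity)),
      eventually_gt_atTop 1] with z hz hz1
    have hz1' : (1 : ℝ) < z := by exact_mod_cast hz1
    have hz0 : (0 : ℝ) < z := by linarith
    have hl : 0 < Real.log (z : ℝ) := Real.log_pos hz1'
    rw [div_lt_iff₀ hz0] at hz
    rw [← mul_div_assoc, le_div_iff₀ hl]
    nlinarith
  obtain ⟨z, hz⟩ := ((eventually_ge_atTop N).and ((h1.eventually_ge_atTop A).and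
    ((tendsto_natCast_atTop_atTop (R := ℝ)).eventually_ge_atTop B |>.and h6))).exists
  exact ⟨z, hz.1, hz.2.1, hz.2.2.1, hz.2.2.2⟩

/-- the points -/
theorem point (d : ℤ) (hd : ¬ IsSquare d) (p k E z M n : ℕ) (hp : p.Prime) (hp2 : 2 < p)
    (hk : k ≠ 0) (L1 : Finset ℕ) (l0 : ℕ) (β : L1 → ℤ√d) (φ : ∀ i : L1, ℤ√d →+* ZMod (i : ℕ))
    (hpr : ∀ l ∈ L1, l.Prime ∧ p < l ∧ d.natAbs < l ∧ l ≤ z)
    (hl0 : l0.Prime ∧ p < l0 ∧ d.natAbs < l0 ∧ l0 ≤ z) (hcard : L1.card = n)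
    (h1 : ∀ i j, φ i (β j) ≠ 0) (h2 : ∀ i, φ i (star (β i)) = 0)
    (h3 : ∀ i j, j ≠ i → φ i (star (β j)) ≠ 0)
    (hnorm : ∀ i : L1, (β i).norm = ((i : ℕ) : ℤ) * (l0 : ℤ)) (W : ℝ) (hW : 1 ≤ W)
    (hβW : ∀ i, wt (β i) ≤ W) (Λ : (L1 → ℕ) → Fin M)
    (hΛ : ∀ m f f' : L1 → ℕ, (∀ i, m i + f i < E) → (∀ i, m i + f' i < E) →
        Λ (fun i => m i + f i) = Λ (fun i => m i + f' i) →
        ((pp β f * star (pp β f')).im : ℝ) ^ 2 ≤ 4 * |((pp β f * star (pp β f')).norm : ℝ)|)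
    (hE : M * (64 * (2 * p ^ k)) < E ^ n) :
    ∃ t w : ℤ, w ≠ 0 ∧ IsCoprime (4 * t - 1) (d * w) ∧ ((p ^ k : ℕ) : ℤ) ∣ 8 * w ∧ (p : ℤ) ∣ w ∧
      (4 * t - 1) ^ 2 - d * (8 * w) ^ 2 ≠ 0 ∧ |((8 * w : ℤ) : ℝ)| ≤ W ^ (n * E) ∧
      ((8 * w : ℤ) : ℝ) ^ 2 ≤ 4 * |(((4 * t - 1) ^ 2 - d * (8 * w) ^ 2 : ℤ) : ℝ)| ∧
      ∀ q : ℕ, q.Prime → (q : ℤ) ∣ (4 * t - 1) ^ 2 - d * (8 * w) ^ 2 → q ∈ insert l0 L1 := by
  classical
  have hns : ∀ n : ℤ, d ≠ n * n := fun n hn => hd ⟨n, hn⟩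
  have hd0 : d ≠ 0 := by
    rintro rfl
    exact hd ⟨0, rfl⟩
  have hpz : Prime (p : ℤ) := Nat.prime_iff_prime_int.1 hp
  have hfact : ∀ i : L1, Fact (i : ℕ).Prime := fun i => ⟨(hpr i i.2).1⟩
  have hprimes : ∀ (i : L1) (q : ℕ), q.Prime → (q : ℤ) ∣ (β i).norm → q ∈ insert l0 L1 := by
    intro i q hq hdvd
    have hqz : Prime (q : ℤ) := Nat.prime_iff_prime_int.1 hq
    rw [hnorm i] at hdvd
    rcases hqz.dvd_or_dvd hdvd with h | h
    · have h' : q ∣ (i : ℕ) := by exact_mod_cast h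
      rw [(Nat.prime_dvd_prime_iff_eq hq (hpr i i.2).1).1 h']
      exact mem_insert_of_mem i.2
    · have h' : q ∣ l0 := by exact_mod_cast h
      rw [(Nat.prime_dvd_prime_iff_eq hq hl0.1).1 h']
      exact mem_insert_self _ _
  have hbig : ∀ q ∈ insert l0 L1, p < q ∧ d.natAbs < q := by
    intro q hq
    rw [mem_insert] at hq
    rcases hq with rfl | hq
    · exact ⟨hl0.2.1, hl0.2.2.1⟩
    · exact ⟨(hpr q hq).2.1, (hpr q hq).2.2.1⟩
  have hpn : ∀ i, ¬ (p : ℤ) ∣ (β i).norm := by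
    intro i h
    have := (hbig p (hprimes i p hp h)).1
    omega
  have hodd : ∀ i, ¬ (2 : ℤ) ∣ (β i).norm := by
    intro i h
    have := (hbig 2 (hprimes i 2 Nat.prime_two (by exact_mod_cast h))).1
    omega
  obtain ⟨m, f, f', hm, hm', hff, hLeq, hY0, hYp, hY8⟩ := pigeon2 β (fun i : L1 => ZMod (i : ℕ)) φ
    h1 h2 h3 hp hk hpn hodd Λ (by rw [Fintype.card_coe, hcard]; exact hE)
  have harch := hΛ m f f' hm hm' hLeq
  have hwt := wt_pp β hW hβW f f' E hff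
  rw [Fintype.card_coe, hcard] at hwt
  set γ : ℤ√d := pp β f * star (pp β f') with hγ
  have hγn : γ.norm = (∏ i, (β i).norm ^ f i) * ∏ i, (β i).norm ^ f' i := by
    rw [hγ, Zsqrtd.norm_mul, norm_conj, norm_pp, norm_pp]
  have hprn : ∀ q : ℕ, q.Prime → (q : ℤ) ∣ γ.norm → q ∈ insert l0 L1 := by
    intro q hq hdvd
    have hqz : Prime (q : ℤ) := Nat.prime_iff_prime_int.1 hq
    rw [hγn] at hdvd
    rcases hqz.dvd_or_dvd hdvd with h4 | h4
    · obtain ⟨i, -, hi⟩ := (hqz.dvd_finsetProd_iff _).1 h4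
      exact hprimes i q hq (hqz.dvd_of_dvd_pow hi)
    · obtain ⟨i, -, hi⟩ := (hqz.dvd_finsetProd_iff _).1 h4
      exact hprimes i q hq (hqz.dvd_of_dvd_pow hi)
  have hγ0 : γ.norm ≠ 0 := by
    rw [Ne, Zsqrtd.norm_eq_zero hns]
    intro h4
    rw [h4] at hY0
    exact hY0 rfl
  set X : ℤ := γ.re with hX
  set Y : ℤ := γ.im with hY
  have hnXY : γ.norm = X * X - d * Y * Y := norm_def γ
  have hg : 0 < Int.gcd X Y := Int.gcd_pos_of_ne_zero_right _ hY0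
  obtain ⟨x, y, hxy, hx, hy⟩ := Int.exists_gcd_one hg
  set g : ℕ := Int.gcd X Y with hgdef
  have hQn : γ.norm = (g : ℤ) ^ 2 * (x ^ 2 - d * y ^ 2) := by
    rw [hnXY, hx, hy]
    ring
  have hQdvd : x ^ 2 - d * y ^ 2 ∣ γ.norm := ⟨(g : ℤ) ^ 2, by rw [hQn]; ring⟩
  have hgdvd : (g : ℤ) ∣ γ.norm := ⟨(g : ℤ) * (x ^ 2 - d * y ^ 2), by rw [hQn]; ring⟩
  have hyne : y ≠ 0 := by
    rintro rfl
    rw [zero_mul] at hy
    exact hY0 hy
  -- a prime which is not among the given ones is prime to the norm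
  have hcop : ∀ q : ℕ, q.Prime → q ∉ insert l0 L1 → ∀ e : ℤ, e ∣ γ.norm → IsCoprime (q : ℤ) e := by
    intro q hq hqL e he
    have hqz : Prime (q : ℤ) := Nat.prime_iff_prime_int.1 hq
    rw [hqz.coprime_iff_not_dvd]
    intro h
    exact hqL (hprn q hq (h.trans he))
  have hpL : p ∉ insert l0 L1 := fun h => by
    have := (hbig p h).1
    omega
  have h2L : 2 ∉ insert l0 L1 := fun h => by
    have := (hbig 2 h).1
    omega
  have hpy : ((p ^ k : ℕ) : ℤ) ∣ y := by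
    have h4 : ((p ^ k : ℕ) : ℤ) ∣ y * g := by rw [← hy]; exact hYp
    have h5 : IsCoprime ((p ^ k : ℕ) : ℤ) (g : ℤ) := by
      push_cast
      exact IsCoprime.pow_left (hcop p hp hpL _ hgdvd)
    exact h5.dvd_of_dvd_mul_right h4
  have h8y : (8 : ℤ) ∣ y := by
    have h4 : (8 : ℤ) ∣ y * g := by rw [← hy]; exact hY8
    have h5 : IsCoprime (8 : ℤ) (g : ℤ) := by
      rw [show (8 : ℤ) = ((2 : ℕ) : ℤ) ^ 3 by norm_num]
      exact IsCoprime.pow_left (hcop 2 Nat.prime_two h2L _ hgdvd)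
    exact h5.dvd_of_dvd_mul_right h4
  obtain ⟨w, hw⟩ := h8y
  have hwne : w ≠ 0 := by
    rintro rfl
    rw [mul_zero] at hw
    exact hyne hw
  have hpw : (p : ℤ) ∣ w := by
    have h4 : (p : ℤ) ∣ 8 * w := by
      rw [← hw]
      refine dvd_trans ?_ hpy
      push_cast
      exact dvd_pow_self _ hk
    rcases hpz.dvd_or_dvd h4 with h5 | h5
    · exfalso
      have h6 : (p : ℤ) ∣ 2 := hpz.dvd_of_dvd_pow (n := 3) (by norm_num; exact h5)
      have h7 := Int.le_of_dvd (by norm_num) h6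
      omega
    · exact h5
  have hdx : IsCoprime x d := by
    have h4 : IsCoprime (x ^ 2 - d * y ^ 2) d := by
      rw [Int.isCoprime_iff_gcd_eq_one]
      by_contra hne
      obtain ⟨q, hq, hqd⟩ := Nat.exists_prime_and_dvd hne
      have h5 : (q : ℤ) ∣ x ^ 2 - d * y ^ 2 :=
        (Int.natCast_dvd_natCast.2 hqd).trans (Int.gcd_dvd_left _ _)
      have h6 : (q : ℤ) ∣ d := (Int.natCast_dvd_natCast.2 hqd).trans (Int.gcd_dvd_right _ _)
      have h7 := (hbig q (hprn q hq (h5.trans hQdvd))).2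
      have h8 := Nat.le_of_dvd (Int.natAbs_pos.2 hd0) (Int.natCast_dvd.1 h6)
      omega
    have h5 : IsCoprime (x ^ 2) d := by
      have e : x ^ 2 = (x ^ 2 - d * y ^ 2) + d * (y ^ 2) := by ring
      rw [e]
      exact IsCoprime.add_mul_left_left h4 _
    exact (IsCoprime.pow_left_iff (by norm_num)).1 h5
  have hxyc : IsCoprime x y := Int.isCoprime_iff_gcd_eq_one.2 hxy
  have hxw : IsCoprime x w := hxyc.of_isCoprime_of_dvd_right ⟨8, by rw [hw]; ring⟩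
  have hxdw : IsCoprime x (d * w) := hdx.mul_right hxw
  have hx2 : ¬ (2 : ℤ) ∣ x := by
    intro h
    have h4 : (2 : ℤ) ∣ x ^ 2 - d * y ^ 2 := by
      refine dvd_sub (Dvd.dvd.pow h two_ne_zero) ?_
      rw [hw]
      exact ⟨d * 32 * w ^ 2, by ring⟩
    exact h2L (hprn 2 Nat.prime_two (by exact_mod_cast h4.trans hQdvd))
  obtain ⟨t, ht⟩ : ∃ t : ℤ, 4 * t - 1 = x ∨ 4 * t - 1 = -x := by
    have h4 : x % 4 = 1 ∨ x % 4 = 3 := by omega
    rcases h4 with h4 | h4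
    · exact ⟨(-x + 1) / 4, Or.inr (by omega)⟩
    · exact ⟨(x + 1) / 4, Or.inl (by omega)⟩
  have hsq : (4 * t - 1) ^ 2 = x ^ 2 := by
    rcases ht with h | h <;> rw [h]
    ring
  have hQeq : (4 * t - 1) ^ 2 - d * (8 * w) ^ 2 = x ^ 2 - d * y ^ 2 := by rw [hsq, hw]
  have hQ0 : x ^ 2 - d * y ^ 2 ≠ 0 := by
    intro h
    rw [h, mul_zero] at hQn
    exact hγ0 hQn
  refine ⟨t, w, hwne, ?_, by rw [← hw]; exact hpy, hpw, by rw [hQeq]; exact hQ0, ?_, ?_, ?_⟩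
  · rcases ht with h | h <;> rw [h]
    · exact hxdw
    · exact hxdw.neg_left
  · rw [← hw]
    have h4 : |(y : ℝ)| ≤ |(Y : ℝ)| := by
      rw [hy]
      push_cast
      rw [abs_mul]
      have h5 : (1 : ℝ) ≤ |((g : ℕ) : ℝ)| := by
        rw [Nat.abs_cast]
        exact_mod_cast hg
      have := abs_nonneg (y : ℝ)
      nlinarith
    exact h4.trans ((im_le_wt hd0 γ).trans hwt)
  · rw [hQeq, ← hw]
    have h4 : (Y : ℝ) = (y : ℝ) * (g : ℝ) := by rw [hy]; push_cast; ring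
    have h5 : (γ.norm : ℝ) = (g : ℝ) ^ 2 * ((x ^ 2 - d * y ^ 2 : ℤ) : ℝ) := by
      rw [hQn]; push_cast; ring
    rw [h4, h5, abs_mul, abs_of_nonneg (by positivity : (0 : ℝ) ≤ (g : ℝ) ^ 2)] at harch
    have hg2 : (0 : ℝ) < (g : ℝ) ^ 2 := by
      have : (0 : ℝ) < g := by exact_mod_cast hg
      positivity
    have h6 : (g : ℝ) ^ 2 * (y : ℝ) ^ 2 ≤
        (g : ℝ) ^ 2 * (4 * |((x ^ 2 - d * y ^ 2 : ℤ) : ℝ)|) := by
      nlinarith
    exact le_of_mul_le_mul_left h6 hg2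
  · intro q hq hdvd
    rw [hQeq] at hdvd
    exact hprn q hq (hdvd.trans hQdvd)

end Pool.Agent.H902E
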