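import Pool.Agent.H902D.Size

/-! The box principle with a condition modulo eight and an additional class function. -/

set_option autoImplicit false

namespace Pool.Agent.H902E

open Zsqrtd Finset Pool.Agent.H902D

variable {d : ℤ}

theorem pigeon2 {ι : Type} [Fintype ι] [DecidableEq ι] (β : ι → ℤ√d) (F : ι → Type)
    [∀ i, Field (F i)]
    (φ : ∀ i, ℤ√d →+* F i) (h1 : ∀ i j, φ i (β j) ≠ 0) (h2 : ∀ i, φ i (star (β i)) = 0)
    (h3 : ∀ i j, j ≠ i → φ i (star (β j)) ≠ 0) {p k E M : ℕ} (hp : p.Prime) (hk : k ≠ 0)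
    (hpn : ∀ i, ¬ (p : ℤ) ∣ (β i).norm) (hodd : ∀ i, ¬ (2 : ℤ) ∣ (β i).norm)
    (Λ : (ι → ℕ) → Fin M) (hE : M * (64 * (2 * p ^ k)) < E ^ Fintype.card ι) :
    ∃ m f f' : ι → ℕ, (∀ i, m i + f i < E) ∧ (∀ i, m i + f' i < E) ∧ (∀ i, f i + f' i < E) ∧
      Λ (fun i => m i + f i) = Λ (fun i => m i + f' i) ∧
      (pp β f * star (pp β f')).im ≠ 0 ∧
      ((p ^ k : ℕ) : ℤ) ∣ (pp β f * star (pp β f')).im ∧ 8 ∣ (pp β f * star (pp β f')).im := by
  classical
  have hpz : Prime (p : ℤ) := Nat.prime_iff_prime_int.1 hp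
  have h2z : Prime (2 : ℤ) := Int.prime_two
  have hnorm : ∀ e : ι → ℕ, ¬ (p : ℤ) ∣ (pp β e).norm := by
    intro e h
    rw [norm_pp] at h
    obtain ⟨i, -, hi⟩ := (hpz.dvd_finsetProd_iff _).1 h
    exact hpn i (hpz.dvd_of_dvd_pow hi)
  have hnorm2 : ∀ e : ι → ℕ, ¬ (2 : ℤ) ∣ (pp β e).norm := by
    intro e h
    rw [norm_pp] at h
    obtain ⟨i, -, hi⟩ := (h2z.dvd_finsetProd_iff _).1 h
    exact hodd i (h2z.dvd_of_dvd_pow hi)
  have : NeZero (p ^ k) := ⟨pow_ne_zero _ hp.ne_zero⟩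
  have hcard : Fintype.card (Fin M × (ZMod 8 × ZMod 8) × (Bool × ZMod (p ^ k))) <
      Fintype.card (ι → Fin E) := by
    rw [Fintype.card_prod, Fintype.card_prod, Fintype.card_prod, Fintype.card_prod,
      Fintype.card_bool, ZMod.card, ZMod.card, Fintype.card_fun, Fintype.card_fin,
      Fintype.card_fin]
    exact hE
  obtain ⟨e, e', hee, hcl⟩ := Fintype.exists_ne_map_eq_of_card_lt
    (fun e : ι → Fin E => ((Λ (fun i => (e i : ℕ)),
      ((((pp β fun i => (e i : ℕ)).re : ℤ) : ZMod 8), (((pp β fun i => (e i : ℕ)).im : ℤ) : ZMod 8)),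
      cl p k (pp β fun i => (e i : ℕ))) : Fin M × (ZMod 8 × ZMod 8) × (Bool × ZMod (p ^ k)))) hcard
  simp only [Prod.mk.injEq] at hcl
  obtain ⟨hΛ, ⟨hre8, him8⟩, hcl⟩ := hcl
  have hdvd := cl_eq hp hk _ _ (hnorm _) (hnorm _) hcl
  have hdvd8 : (8 : ℤ) ∣ (pp β (fun i => (e i : ℕ)) * star (pp β fun i => (e' i : ℕ))).im := by
    have h8 : ((8 : ℕ) : ℤ) ∣
        (pp β (fun i => (e i : ℕ)) * star (pp β fun i => (e' i : ℕ))).im := by
      rw [← ZMod.intCast_zmod_eq_zero_iff_dvd, im_mul, re_star, im_star]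
      push_cast
      rw [hre8, him8]
      ring
    exact_mod_cast h8
  set m : ι → ℕ := fun i => min (e i : ℕ) (e' i) with hm
  set f : ι → ℕ := fun i => (e i : ℕ) - e' i with hf
  set f' : ι → ℕ := fun i => (e' i : ℕ) - e i with hf'
  have he : (fun i => (e i : ℕ)) = fun i => m i + f i := by
    funext i
    simp only [hm, hf]
    omega
  have he' : (fun i => (e' i : ℕ)) = fun i => m i + f' i := by
    funext i
    simp only [hm, hf']
    omega
  rw [he, he', pp_add, pp_add] at hdvd hdvd8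
  rw [he, he'] at hΛ
  have e2 : pp β m * pp β f * star (pp β m * pp β f') =
      ((pp β m).norm : ℤ√d) * (pp β f * star (pp β f')) := by
    rw [norm_eq_mul_conj, star_mul]
    ring
  rw [e2, im_smul] at hdvd hdvd8
  refine ⟨m, f, f', fun i => ?_, fun i => ?_, fun i => ?_, hΛ, ?_, ?_, ?_⟩
  · rw [← congrFun he i]
    exact (e i).2
  · rw [← congrFun he' i]
    exact (e' i).2
  · have := (e i).2
    have := (e' i).2
    simp only [hf, hf']
    omega
  · refine im_ne β F φ h1 h2 h3 f f' (fun i => ?_) ?_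
    · simp only [hf, hf']
      omega
    · by_contra hcon
      push Not at hcon
      apply hee
      funext i
      have := hcon i
      simp only [hf, hf'] at this
      exact Fin.ext (by omega)
  · have hc : IsCoprime ((p ^ k : ℕ) : ℤ) (pp β m).norm := by
      push_cast
      exact IsCoprime.pow_left (hpz.coprime_iff_not_dvd.2 (hnorm m))
    exact hc.dvd_of_dvd_mul_left hdvd
  · have hc : IsCoprime (8 : ℤ) (pp β m).norm := by
      rw [show (8 : ℤ) = 2 ^ 3 by norm_num]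
      exact IsCoprime.pow_left (h2z.coprime_iff_not_dvd.2 (hnorm2 m))
    exact hc.dvd_of_dvd_mul_left hdvd8

end Pool.Agent.H902E
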